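import Pool.Agent.R515.FHC.Per
import Pool.Agent.R515.FHC.Freq

/-!
A shift operator which is frequently hypercyclic but not Devaney chaotic.
-/

set_option autoImplicit false

namespace Pool.Agent.Results.MP_7d5718_an.FrequentlyHypercyclicNotChaotic

open Filter Topology Set
open Pool.Agent.R515.FHC

section Defs

variable {𝕜 E : Type} [RCLike 𝕜] [NormedAddCommGroup E] [NormedSpace 𝕜 E]

/-- some orbit is dense -/
def Hypercyclic (T : E →L[𝕜] E) : Prop := ∃ x, Dense (Set.range fun n : ℕ => T^[n] x)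

/-- hypercyclic with a dense set of periodic points -/
def DevaneyChaotic (T : E →L[𝕜] E) : Prop :=
  Hypercyclic T ∧ Dense {x | ∃ k : ℕ, 1 ≤ k ∧ T^[k] x = x}

/-- lower density of a set of natural numbers -/
noncomputable def lowerDensity (A : Set ℕ) : ℝ :=
  liminf (fun N : ℕ => ((A ∩ Set.Iio N).ncard : ℝ) / N) atTop

/-- some orbit visits every non-empty open set along a set of times of positive lower density -/
def FrequentlyHypercyclic (T : E →L[𝕜] E) : Prop :=
  ∃ x, ∀ U : Set E, IsOpen U → U.Nonempty → 0 < lowerDensity {n | T^[n] x ∈ U}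

/-- The space `ℓ¹(ℤ; X)` of absolutely summable bilateral sequences in `X`. -/
abbrev EllOne (X : Type) [NormedAddCommGroup X] : Type := lp (fun _ : ℤ => X) 1

/-- the `n`-th term of a sequence -/
def term {X : Type} [NormedAddCommGroup X] (x : EllOne X) (n : ℤ) : X := x n

/-- the invertible operator `A` has norm at most `C` -/
def NormAtMost {X : Type} [NormedAddCommGroup X] [NormedSpace 𝕜 X] (A : X ≃L[𝕜] X) (C : ℝ) :
    Prop := ∀ x, ‖A x‖ ≤ C * ‖x‖

/-- The operators `S n` are uniformly bounded together with their inverses. -/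
def UniformlyInvertible {X : Type} [NormedAddCommGroup X] [NormedSpace 𝕜 X]
    (S : ℤ → (X ≃L[𝕜] X)) : Prop :=
  ∃ C : ℝ, ∀ n, NormAtMost (S n) C ∧ NormAtMost (S n).symm C

/-- the `n`-th term of the image of `x` under the shift operator: `S (n + 1) (x (n + 1))` -/
def shiftTerm {X : Type} [NormedAddCommGroup X] [NormedSpace 𝕜 X]
    (S : ℤ → (X ≃L[𝕜] X)) (x : EllOne X) (n : ℤ) : X := S (n + 1) (term x (n + 1))

/-- `T` is the shift operator on `ℓ¹(ℤ; X)` generated by the sequence `S` of bounded invertible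
operators: `(T x) n = S (n + 1) (x (n + 1))`. -/
def IsShiftOperator {X : Type} [NormedAddCommGroup X] [NormedSpace 𝕜 X]
    (S : ℤ → (X ≃L[𝕜] X)) (T : EllOne X →L[𝕜] EllOne X) : Prop :=
  ∀ (x : EllOne X) (n : ℤ), term (T x) n = shiftTerm S x n

/-- The shift operator generated by `S` is frequently hypercyclic but not Devaney chaotic. -/
def FHNotChaotic {X : Type} [NormedAddCommGroup X] [NormedSpace 𝕜 X]
    (S : ℤ → (X ≃L[𝕜] X)) : Prop :=
  ∃ T : EllOne X →L[𝕜] EllOne X, IsShiftOperator S T ∧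
    FrequentlyHypercyclic T ∧ Hypercyclic T ∧ ¬ DevaneyChaotic T

end Defs

lemma lowerDensity_pos {A : Set ℕ} {l : ℕ} (h : Nl l ⊆ A) : 0 < lowerDensity A := by
  classical
  obtain ⟨δ, hδ, hd⟩ := density l
  refine hδ.trans_le ?_
  unfold lowerDensity
  apply le_liminf_of_le
  · apply IsBoundedUnder.isCoboundedUnder_ge
    refine ⟨1, ?_⟩
    rw [eventually_map]
    refine Eventually.of_forall fun N => ?_
    rcases Nat.eq_zero_or_pos N with h0 | h0
    · subst h0; simp
    · rw [div_le_one (by exact_mod_cast h0)]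
      have h1 : (A ∩ Set.Iio N).ncard ≤ (Set.Iio N).ncard :=
        Set.ncard_le_ncard Set.inter_subset_right (Set.finite_Iio N)
      have h2 : (Set.Iio N).ncard = N := by
        rw [← Finset.coe_Iio, Set.ncard_coe_finset, Nat.card_Iio]
      rw [h2] at h1
      exact_mod_cast h1
  · filter_upwards [eventually_ge_atTop (B (l + 1)), eventually_ge_atTop 1] with N hN hN1
    have hNR : (0 : ℝ) < N := by exact_mod_cast hN1
    rw [le_div_iff₀ hNR]
    refine (hd N hN).trans ?_
    have h1 : ((Finset.range N).filter (fun t => t ∈ Nl l)).card ≤ (A ∩ Set.Iio N).ncard := by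
      rw [← Set.ncard_coe_finset]
      apply Set.ncard_le_ncard
      · intro t ht
        rw [Finset.coe_filter] at ht
        exact ⟨h ht.2, Finset.mem_range.mp ht.1⟩
      · exact (Set.finite_Iio N).subset Set.inter_subset_right
    exact_mod_cast h1

/-- **A shift operator which is frequently hypercyclic but not Devaney chaotic.** For both
scalar fields there are a Banach space `X`, and bounded invertible operators `S n` on `X` with
`‖S n‖, ‖(S n)⁻¹‖` bounded, whose shift operator on `ℓ¹(ℤ; X)` is frequently hypercyclic (and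
hypercyclic) but not Devaney chaotic. -/
theorem result (𝕜 : Type) [RCLike 𝕜] :
    ∃ (X : Type) (_ : NormedAddCommGroup X) (_ : NormedSpace 𝕜 X) (_ : CompleteSpace X)
      (S : ℤ → (X ≃L[𝕜] X)), UniformlyInvertible S ∧ FHNotChaotic S := by
  obtain ⟨D⟩ := exists_data 𝕜
  refine ⟨XX 𝕜, inferInstance, inferInstance, inferInstance, So D,
    ⟨24, fun n => ⟨fun x => ?_, fun x => ?_⟩⟩,
    (TT D : L1 (XX 𝕜) →L[𝕜] L1 (XX 𝕜)), fun x n => rfl, ?_, ?_, ?_⟩
  · exact E_ratio D (by simp) x
  · exact E_ratio D (m := n - 1) (m' := n) (by simp) x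
  · refine ⟨xx D, fun U hU hne => ?_⟩
    obtain ⟨l, hl⟩ := freq D U hU hne
    exact lowerDensity_pos (l := l) (fun s hs => hl s hs)
  · refine ⟨xx D, ?_⟩
    rw [dense_iff_inter_open]
    intro U hU hne
    obtain ⟨l, hl⟩ := freq D U hU hne
    have hB : B l ∈ Nl l := by
      have h1 := cnt_base l
      unfold cnt at h1
      rw [Nat.one_le_iff_ne_zero, Finset.card_ne_zero] at h1
      have h2 := B_lt l
      have h3 := B_pos l
      refine ⟨Nat.mod_eq_of_lt (by omega), fun j hj hBj => ?_⟩
      exfalso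
      have h4 : B (l + 1) ≤ B j := B_mono hj
      omega
    exact ⟨_, hl _ hB, ⟨B l, rfl⟩⟩
  · rintro ⟨-, hper⟩
    obtain ⟨y, hy⟩ := D.hlam0
    set φ : L1 (XX 𝕜) → 𝕜 := fun x => D.lam ((Eo D 0).symm (x 0)) with hφ
    have hcont : Continuous φ :=
      D.lam.continuous.comp ((Eo D 0).symm.continuous.comp
        (lp.evalCLM 𝕜 (fun _ : ℤ => XX 𝕜) 1 0).continuous)
    have hopen : IsOpen {x | φ x ≠ 0} := isOpen_ne_fun hcont continuous_const
    have hne : {x | φ x ≠ 0}.Nonempty := by
      refine ⟨lp.single 1 0 (Eo D 0 y), ?_⟩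
      change D.lam ((Eo D 0).symm ((lp.single 1 (0 : ℤ) (Eo D 0 y) : L1 (XX 𝕜)) 0)) ≠ 0
      rw [lp.single_apply_self, ContinuousLinearEquiv.symm_apply_apply]
      exact hy
    obtain ⟨x, hx1, k, hk, hx2⟩ := (dense_iff_inter_open.mp hper) _ hopen hne
    exact hx1 (periodic_lam D hk hx2)

end Pool.Agent.Results.MP_7d5718_an.FrequentlyHypercyclicNotChaotic
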